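import Pool.Agent.Helper75.CR.St2

set_option autoImplicit false

/-! Project CR, module O2 (written by helper62). -/

namespace Pool.Agent.Helper62.CR

open Pool.Agent.Helper75.CR Helper1.IM

theorem mem_st {a : Lt} {u : Wd} : a ∈ st u ↔ fl a ∈ u := by
  simp only [st, List.mem_reverse, List.mem_map]
  constructor
  · rintro ⟨b, hb, rfl⟩
    simpa using hb
  · intro h
    exact ⟨fl a, h, by simp⟩

theorem mem_sb {a : Lt} {f : ℕ → Wd} {u : Wd} :
    a ∈ sb f u ↔ ∃ c ∈ u, a ∈ (if c.2 then st (f c.1) else f c.1) := by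
  simp only [sb, List.mem_flatMap]

theorem prd_of_fl {a : Lt} {u : Wd} (h1 : a ∈ u) (h2 : fl a ∈ u) : Prd u := by
  obtain ⟨i, b⟩ := a
  cases b
  · exact ⟨i, h1, h2⟩
  · exact ⟨i, h2, h1⟩

theorem prd_mul {u : Wd} (a b : Wd) (h : Prd u) : Prd (a ++ u ++ b) := by
  obtain ⟨i, h1, h2⟩ := h
  exact ⟨i, by simp [h1], by simp [h2]⟩

theorem prd_st {u : Wd} (h : Prd u) : Prd (st u) := by
  obtain ⟨i, h1, h2⟩ := h
  exact ⟨i, mem_st.2 (by simpa [fl] using h2), mem_st.2 (by simpa [fl] using h1)⟩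

theorem prd_sb {u : Wd} (f : ℕ → Wd) (hf : ∀ i, f i ≠ []) (h : Prd u) : Prd (sb f u) := by
  obtain ⟨i, h1, h2⟩ := h
  obtain ⟨a, ha⟩ := List.exists_mem_of_ne_nil _ (hf i)
  refine prd_of_fl (a := a) (mem_sb.2 ⟨(i, false), h1, by simpa using ha⟩)
    (mem_sb.2 ⟨(i, true), h2, ?_⟩)
  have : fl a ∈ st (f i) := mem_st.2 (by simpa using ha)
  simpa using this

theorem sc_mul {u v : Wd} (a b : Wd) (h : SC u v) : SC (a ++ u ++ b) (a ++ v ++ b) := by
  intro c
  simp [h c]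

theorem sc_st {u v : Wd} (h : SC u v) : SC (st u) (st v) := by
  intro c
  rw [mem_st, mem_st]
  exact h _

theorem sc_sb {u v : Wd} (f : ℕ → Wd) (h : SC u v) : SC (sb f u) (sb f v) := by
  intro c
  rw [mem_sb, mem_sb]
  constructor
  · rintro ⟨d, hd, hc⟩
    exact ⟨d, (h d).1 hd, hc⟩
  · rintro ⟨d, hd, hc⟩
    exact ⟨d, (h d).2 hd, hc⟩

theorem sc_symm {u v : Wd} (h : SC u v) : SC v u := fun a => (h a).symm

theorem sc_prd {u v : Wd} (h : SC u v) (hu : Prd u) : Prd v := by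
  obtain ⟨i, h1, h2⟩ := hu
  exact ⟨i, (h _).1 h1, (h _).1 h2⟩

theorem not_prd_nil : ¬ Prd [] := by
  rintro ⟨i, h, -⟩
  simp at h

theorem sc_nil {v : Wd} (h : SC [] v) : v = [] := by
  cases v with
  | nil => rfl
  | cons a v => exact absurd ((h a).2 (by simp)) (by simp)

/-- the congruence `α` -/
def alp (θ : FIC) (hs : SLE θ) : FIC where
  r u v := θ.r u v ∨ (Prd u ∧ Prd v)
  refl' u := Or.inl (θ.refl' u)
  symm' := by
    rintro u v (h | ⟨h1, h2⟩)
    · exact Or.inl (θ.symm' h)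
    · exact Or.inr ⟨h2, h1⟩
  trans' := by
    rintro u v w (h | ⟨h1, h2⟩) (h' | ⟨h1', h2'⟩)
    · exact Or.inl (θ.trans' h h')
    · rcases hs _ _ h with ⟨h3, -⟩ | ⟨-, h4, -⟩
      · exact Or.inr ⟨h3, h2'⟩
      · exact absurd h1' h4
    · rcases hs _ _ h' with ⟨-, h3⟩ | ⟨h4, -, -⟩
      · exact Or.inr ⟨h1, h3⟩
      · exact absurd h2 h4
    · exact Or.inr ⟨h1, h2'⟩
  ne' := by
    rintro u v (h | ⟨h1, -⟩) hu
    · exact θ.ne' h hu
    · rw [hu] at h1
      exact absurd h1 not_prd_nil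
  mul' := by
    rintro u v a b (h | ⟨h1, h2⟩)
    · exact Or.inl (θ.mul' a b h)
    · exact Or.inr ⟨prd_mul a b h1, prd_mul a b h2⟩
  star' := by
    rintro u v (h | ⟨h1, h2⟩)
    · exact Or.inl (θ.star' h)
    · exact Or.inr ⟨prd_st h1, prd_st h2⟩
  sub' := by
    rintro u v f hf (h | ⟨h1, h2⟩)
    · exact Or.inl (θ.sub' f hf h)
    · exact Or.inr ⟨prd_sb f hf h1, prd_sb f hf h2⟩

/-- the congruence `γ` -/
def gam : FIC where
  r u v := (Prd u ∧ Prd v) ∨ SC u v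
  refl' u := Or.inr (fun _ => Iff.rfl)
  symm' := by
    rintro u v (⟨h1, h2⟩ | h)
    · exact Or.inl ⟨h2, h1⟩
    · exact Or.inr (sc_symm h)
  trans' := by
    rintro u v w (⟨h1, h2⟩ | h) (⟨h1', h2'⟩ | h')
    · exact Or.inl ⟨h1, h2'⟩
    · exact Or.inl ⟨h1, sc_prd h' h2⟩
    · exact Or.inl ⟨sc_prd (sc_symm h) h1', h2'⟩
    · exact Or.inr (fun a => (h a).trans (h' a))
  ne' := by
    rintro u v (⟨h1, -⟩ | h) hu
    · rw [hu] at h1
      exact absurd h1 not_prd_nil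
    · rw [hu] at h
      exact sc_nil h
  mul' := by
    rintro u v a b (⟨h1, h2⟩ | h)
    · exact Or.inl ⟨prd_mul a b h1, prd_mul a b h2⟩
    · exact Or.inr (sc_mul a b h)
  star' := by
    rintro u v (⟨h1, h2⟩ | h)
    · exact Or.inl ⟨prd_st h1, prd_st h2⟩
    · exact Or.inr (sc_st h)
  sub' := by
    rintro u v f hf (⟨h1, h2⟩ | h)
    · exact Or.inl ⟨prd_sb f hf h1, prd_sb f hf h2⟩
    · exact Or.inr (sc_sb f h)

theorem key (θ β : FIC) (hs : SLE θ) (hm : ModAt θ) (hβ : Le θ β)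
    (hq : ∃ q, Prd q ∧ β.r [X 0] q) (u v : Wd) (hu : u ≠ []) (hv : v ≠ []) (hsc : SC u v)
    (hup : ¬ Prd u) : β.r u v := by
  obtain ⟨q, hq1, hq2⟩ := hq
  have hα : Le θ (alp θ hs) := fun u v h => Or.inl h
  have hγ : Le θ gam := by
    intro u v h
    rcases hs _ _ h with h1 | ⟨-, -, h1⟩
    · exact Or.inl h1
    · exact Or.inr h1
  have hαγ : Le (alp θ hs) gam := by
    rintro u v (h | h)
    · exact hγ u v h
    · exact Or.inl h
  have hex : ∀ w : Wd, w ≠ [] → ∃ w', Prd w' ∧ β.r w w' := by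
    intro w hw
    cases w with
    | nil => exact absurd rfl hw
    | cons a w =>
      have h1 := β.sub' (fun _ => [a]) (by simp) hq2
      have h2 : sb (fun _ => [a]) [X 0] = [a] := by simp
      rw [h2] at h1
      refine ⟨[] ++ sb (fun _ => [a]) q ++ w, prd_mul _ _ (prd_sb _ (by simp) hq1), ?_⟩
      have h3 := β.mul' [] w h1
      simpa using h3
  have hjn : Jn (alp θ hs) β u v := by
    obtain ⟨u', hu1, hu2⟩ := hex u hu
    obtain ⟨v', hv1, hv2⟩ := hex v hv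
    refine Relation.ReflTransGen.head (Or.inr hu2) (Relation.ReflTransGen.head
      (Or.inl (Or.inr ⟨hu1, hv1⟩)) (Relation.ReflTransGen.single (Or.inr (β.symm' hv2))))
  have hjm := hm (alp θ hs) β gam hα hβ hγ hαγ u v hjn (Or.inr hsc)
  have hδ : (Prd u ∧ Prd v) ∨ (¬ Prd u ∧ ¬ Prd v ∧ β.r u v) := by
    clear hv hsc hup hjn
    induction hjm with
    | refl =>
      by_cases h : Prd u
      · exact Or.inl ⟨h, h⟩
      · exact Or.inr ⟨h, h, β.refl' u⟩
    | @tail b c _ hbc ih =>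
      have hstep : (Prd b ∧ Prd c) ∨ (¬ Prd b ∧ ¬ Prd c ∧ β.r b c) := by
        rcases hbc with (h | h) | ⟨h1, h2⟩
        · rcases hs _ _ h with h3 | ⟨h3, h4, -⟩
          · exact Or.inl h3
          · exact Or.inr ⟨h3, h4, hβ _ _ h⟩
        · exact Or.inl h
        · rcases h2 with h2 | h2
          · exact Or.inl h2
          · by_cases h : Prd b
            · exact Or.inl ⟨h, sc_prd h2 h⟩
            · exact Or.inr ⟨h, fun h3 => h (sc_prd (sc_symm h2) h3), h1⟩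
      rcases ih with ⟨h1, h2⟩ | ⟨h1, h2, h3⟩ <;> rcases hstep with ⟨h4, h5⟩ | ⟨h4, h5, h6⟩
      · exact Or.inl ⟨h1, h5⟩
      · exact absurd h2 h4
      · exact absurd h4 h2
      · exact Or.inr ⟨h1, h5, β.trans' h3 h6⟩
  rcases hδ with ⟨h, -⟩ | ⟨-, -, h⟩
  · exact absurd h hup
  · exact h

theorem hO2 : StO2 := by
  intro θ β hs hm hβ hq
  constructor
  · refine key θ β hs hm hβ hq _ _ (by simp) (by simp) ?_ ?_
    · intro a
      simp
    · rintro ⟨i, h1, h2⟩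
      simp [X] at h2
  · refine key θ β hs hm hβ hq _ _ (by simp) (by simp) ?_ ?_
    · intro a
      simp [or_comm]
    · rintro ⟨i, h1, h2⟩
      simp [X] at h2

end Pool.Agent.Helper62.CR
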