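import Pool.Agent.Helper75.CR.St3

set_option autoImplicit false

/-! Project CR, module Q2 (written by helper62; similar to the module J of helper76). -/

namespace Pool.Agent.Helper62.CR.Q2

open Pool.Agent.Helper75.CR Helper1.IM

theorem sc_refl (u : Wd) : SC u u := fun _ => Iff.rfl

theorem sc_symm {u v : Wd} (h : SC u v) : SC v u := fun a => (h a).symm

theorem sc_trans {u v w : Wd} (h : SC u v) (h' : SC v w) : SC u w := fun a => (h a).trans (h' a)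

theorem mem_st {a : Lt} {u : Wd} : a ∈ st u ↔ fl a ∈ u := by
  simp only [st, List.mem_reverse, List.mem_map]
  constructor
  · rintro ⟨b, hb, rfl⟩
    simpa using hb
  · intro h
    exact ⟨fl a, h, by simp⟩

theorem sc_st {u v : Wd} (h : SC u v) : SC (st u) (st v) := by
  intro c
  rw [mem_st, mem_st]
  exact h _

theorem sc_ne {u v : Wd} (h : SC u v) (hv : v ≠ []) : u ≠ [] := by
  rintro rfl
  obtain ⟨a, ha⟩ := List.exists_mem_of_ne_nil _ hv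
  have := (h a).2 ha
  simp at this

/-- words with the letters of `C` -/
def TT (C : Wd) : Type := {x : Wd // SC x C}

instance (C : Wd) : Semigroup (TT C) where
  mul x y := ⟨x.1 ++ y.1, fun a => by rw [List.mem_append, x.2 a, y.2 a, or_self]⟩
  mul_assoc x y z := Subtype.ext (List.append_assoc _ _ _)

theorem mul_val {C : Wd} (x y : TT C) : (x * y).1 = x.1 ++ y.1 := rfl

/-- the congruence on `TT C` -/
def cT (ρ : FIC) (C : Wd) : Con (TT C) where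
  r x y := ρ.r x.1 y.1
  iseqv := ⟨fun _ => ρ.refl' _, fun h => ρ.symm' h, fun h h' => ρ.trans' h h'⟩
  mul' h h' := ρ.mul2 h h'

theorem cT_def (ρ : FIC) (C : Wd) (x y : TT C) : cT ρ C x y ↔ ρ.r x.1 y.1 := Iff.rfl

/-- extensions by letters which are already present -/
theorem ext (hL2 : StL2) (hM1 : Pool.Agent.Helper75.CR.StM1) {θ : FIC} (hθ : CRF θ) {a t : Wd} (ha : a ≠ [])
    (ht : ∀ c ∈ t, c ∈ a) : (∃ s, θ.r a (a ++ t ++ s)) ∧ ∃ s, θ.r a (s ++ t ++ a) := by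
  have h := hL2 Bool SB (toP θ) (hM1 θ hθ).1 a t ha (by
    intro c hc
    obtain ⟨x, y, hxy⟩ := List.append_of_mem (ht c hc)
    refine ⟨x, y, ?_⟩
    rw [hxy]
    simpa using (toP θ).refl' (x ++ c :: y))
  exact ⟨h.1, h.2.1⟩

section
variable {θ : FIC} {C : Wd}

theorem reg (hL2 : StL2) (hM1 : Pool.Agent.Helper75.CR.StM1) (hθ : CRF θ) (hs : SCP θ) {a : Wd} (ha : a ≠ []) :
    ∃ s1 s2, θ.r a (a ++ a ++ s1) ∧ θ.r a (s2 ++ a ++ a) ∧ θ.r a (a ++ s1 ++ a) ∧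
      (∀ c ∈ s1, c ∈ a) ∧ (∀ c ∈ s2, c ∈ a) := by
  obtain ⟨⟨s1, h1⟩, s2, h2⟩ := ext hL2 hM1 hθ ha (fun c hc => hc : ∀ c ∈ a, c ∈ a)
  have h3 : θ.r (s2 ++ a) (a ++ s1) := by
    refine θ.trans' (θ.mulL s2 h1) (θ.symm' ?_)
    have := θ.mulR s1 h2
    simpa only [List.append_assoc] using this
  have h4 : θ.r a (a ++ s1 ++ a) := by
    refine θ.trans' h2 ?_
    exact θ.mulR a h3
  refine ⟨s1, s2, h1, h2, h4, ?_, ?_⟩
  · intro c hc
    exact (hs _ _ h1 c).2 (by simp [hc])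
  · intro c hc
    exact (hs _ _ h2 c).2 (by simp [hc])

theorem tne (hC : C ≠ []) (x : TT C) : x.1 ≠ [] := sc_ne x.2 hC

theorem hyp1 (hL2 : StL2) (hM1 : Pool.Agent.Helper75.CR.StM1) (hθ : CRF θ) (hs : SCP θ) (hC : C ≠ []) (a b : TT C) :
    ∃ u, cT θ C a (a * b * u * a) := by
  have hne := tne hC a
  obtain ⟨s1, s2, h1, h2, h3, h4, h5⟩ := reg hL2 hM1 hθ hs hne
  obtain ⟨⟨s, hss⟩, -⟩ := ext hL2 hM1 hθ hne (t := b.1 ++ a.1) (by
    intro c hc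
    rw [List.mem_append] at hc
    rcases hc with hc | hc
    · exact (a.2 c).2 ((b.2 c).1 hc)
    · exact hc)
  have hcs : ∀ c ∈ s, c ∈ a.1 := fun c hc => (hs _ _ hss c).2 (by simp [hc])
  have hcu : SC (a.1 ++ s ++ s1) C := by
    intro c
    rw [← a.2 c]
    simp only [List.mem_append]
    constructor
    · rintro ((h | h) | h)
      · exact h
      · exact hcs c h
      · exact h4 c h
    · intro h
      exact Or.inl (Or.inl h)
  refine ⟨⟨a.1 ++ s ++ s1, hcu⟩, ?_⟩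
  change θ.r a.1 (a.1 ++ b.1 ++ (a.1 ++ s ++ s1) ++ a.1)
  refine θ.trans' h3 ?_
  have := θ.mulR (s1 ++ a.1) hss
  simpa only [List.append_assoc] using this

theorem hyp2 (hL2 : StL2) (hM1 : Pool.Agent.Helper75.CR.StM1) (hθ : CRF θ) (hs : SCP θ) (hC : C ≠ []) (a b : TT C) :
    ∃ u, cT θ C a (a * u * b * a) := by
  have hne := tne hC a
  obtain ⟨s1, s2, h1, h2, h3, h4, h5⟩ := reg hL2 hM1 hθ hs hne
  obtain ⟨-, s, hss⟩ := ext hL2 hM1 hθ hne (t := a.1 ++ b.1) (by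
    intro c hc
    rw [List.mem_append] at hc
    rcases hc with hc | hc
    · exact hc
    · exact (a.2 c).2 ((b.2 c).1 hc))
  have hcs : ∀ c ∈ s, c ∈ a.1 := fun c hc => (hs _ _ hss c).2 (by simp [hc])
  have hcu : SC (s1 ++ s ++ a.1) C := by
    intro c
    rw [← a.2 c]
    simp only [List.mem_append]
    constructor
    · rintro ((h | h) | h)
      · exact h4 c h
      · exact hcs c h
      · exact h
    · intro h
      exact Or.inr h
  refine ⟨⟨s1 ++ s ++ a.1, hcu⟩, ?_⟩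
  change θ.r a.1 (a.1 ++ (s1 ++ s ++ a.1) ++ b.1 ++ a.1)
  refine θ.trans' h3 ?_
  have := θ.mulL (a.1 ++ s1) hss
  simpa only [List.append_assoc] using this

theorem rr_rs (ρ : FIC) {a w : TT C} (h : RR (cT ρ C) a w) : Rs ρ a.1 w.1 := by
  obtain ⟨⟨p, hp⟩, q, hq⟩ := h
  exact ⟨⟨p.1, hp⟩, q.1, hq⟩

theorem half (hL2 : StL2) (hM1 : Pool.Agent.Helper75.CR.StM1) (hθ : CRF θ) (hs : SCP θ) {ρ : FIC} (hρ : Le θ ρ)
    (hcp : SCP ρ) (hC : C ≠ []) {a w : TT C} {p : Wd}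
    (h : ρ.r (a.1 ++ p) w.1) : ∃ P : TT C, cT ρ C (a * P) w := by
  obtain ⟨s1, s2, h1, h2, h3, h4, h5⟩ := reg hL2 hM1 hθ hs (tne hC w)
  have hcp' : ∀ c ∈ p, c ∈ w.1 := fun c hc => (hcp _ _ h c).1 (by simp [hc])
  have hcu : SC (p ++ w.1 ++ s1) C := by
    intro c
    rw [← w.2 c]
    simp only [List.mem_append]
    constructor
    · rintro ((h | h) | h)
      · exact hcp' c h
      · exact h
      · exact h4 c h
    · intro h
      exact Or.inl (Or.inr h)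
  refine ⟨⟨p ++ w.1 ++ s1, hcu⟩, ?_⟩
  change ρ.r (a.1 ++ (p ++ w.1 ++ s1)) w.1
  have := ρ.mulR (w.1 ++ s1) h
  refine ρ.trans' ?_ (ρ.symm' (hρ _ _ h1))
  simpa only [List.append_assoc] using this

theorem rs_rr (hL2 : StL2) (hM1 : Pool.Agent.Helper75.CR.StM1) (hθ : CRF θ) (hs : SCP θ) {ρ : FIC} (hρ : Le θ ρ)
    (hcp : SCP ρ) (hC : C ≠ []) {a w : TT C} (h : Rs ρ a.1 w.1) : RR (cT ρ C) a w := by
  obtain ⟨⟨p, hp⟩, q, hq⟩ := h
  exact ⟨half hL2 hM1 hθ hs hρ hcp hC hp, half hL2 hM1 hθ hs hρ hcp hC hq⟩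

theorem ll_rs (ρ : FIC) {a w : TT C} (h : LL (cT ρ C) a w) : Rs ρ (st a.1) (st w.1) := by
  obtain ⟨⟨p, hp⟩, q, hq⟩ := h
  refine ⟨⟨st p.1, ?_⟩, st q.1, ?_⟩
  · have := ρ.star' ((cT_def ρ C _ _).1 hp)
    rwa [mul_val, st_append] at this
  · have := ρ.star' ((cT_def ρ C _ _).1 hq)
    rwa [mul_val, st_append] at this

theorem half' (hL2 : StL2) (hM1 : Pool.Agent.Helper75.CR.StM1) (hθ : CRF θ) (hs : SCP θ) {ρ : FIC} (hρ : Le θ ρ)
    (hcp : SCP ρ) (hC : C ≠ []) {a w : TT C} {p : Wd}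
    (h : ρ.r (p ++ a.1) w.1) : ∃ P : TT C, cT ρ C (P * a) w := by
  obtain ⟨s1, s2, h1, h2, h3, h4, h5⟩ := reg hL2 hM1 hθ hs (tne hC w)
  have hcp' : ∀ c ∈ p, c ∈ w.1 := fun c hc => (hcp _ _ h c).1 (by simp [hc])
  have hcu : SC (s2 ++ w.1 ++ p) C := by
    intro c
    rw [← w.2 c]
    simp only [List.mem_append]
    constructor
    · rintro ((h | h) | h)
      · exact h5 c h
      · exact h
      · exact hcp' c h
    · intro h
      exact Or.inl (Or.inr h)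
  refine ⟨⟨s2 ++ w.1 ++ p, hcu⟩, ?_⟩
  change ρ.r ((s2 ++ w.1 ++ p) ++ a.1) w.1
  have := ρ.mulL (s2 ++ w.1) h
  refine ρ.trans' ?_ (ρ.symm' (hρ _ _ h2))
  simpa only [List.append_assoc] using this

theorem rs_ll (hL2 : StL2) (hM1 : Pool.Agent.Helper75.CR.StM1) (hθ : CRF θ) (hs : SCP θ) {ρ : FIC} (hρ : Le θ ρ)
    (hcp : SCP ρ) (hC : C ≠ []) {a w : TT C} (h : Rs ρ (st a.1) (st w.1)) :
    LL (cT ρ C) a w := by
  obtain ⟨⟨p, hp⟩, q, hq⟩ := h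
  have hp' : ρ.r (st p ++ a.1) w.1 := by
    have := ρ.star' hp
    rwa [st_append, st_st, st_st] at this
  have hq' : ρ.r (st q ++ w.1) a.1 := by
    have := ρ.star' hq
    rwa [st_append, st_st, st_st] at this
  exact ⟨half' hL2 hM1 hθ hs hρ hcp hC hp', half' hL2 hM1 hθ hs hρ hcp hC hq'⟩

end

/-- `R`-permutability on words -/
theorem perm (hQ1 : StQ1) {θ α β : FIC} (hθ : CRF θ) (hP : PII θ) (hN : NRF θ) (hα : Le θ α)
    (hβ : Le θ β) (hsα : SCP α) {a w b : Wd} (ha : a ≠ []) (haw : SC a w) (hwb : SC w b)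
    (h1 : Rs α a w) (h2 : Rs β w b) : ∃ w', SC w' a ∧ Rs β a w' ∧ Rs α w' b := by
  rcases hQ1 θ α hθ hP hN hα hsα a w ha haw h1 with h | h
  · exact ⟨b, sc_symm (sc_trans haw hwb), (h.mono hβ).trans h2, Rs.rfl' α b⟩
  · exact ⟨a, sc_refl a, Rs.rfl' β a, h a b (sc_refl a) (sc_symm (sc_trans haw hwb))⟩

theorem hQ2 (hI : Pool.Agent.Helper75.CR.StI) (hL2 : Pool.Agent.Helper75.CR.StL2)
    (hM1 : Pool.Agent.Helper75.CR.StM1) (hQ1 : Pool.Agent.Helper75.CR.StQ1) :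
    Pool.Agent.Helper75.CR.StQ2 := by
  intro θ α β hθ hP hN hα hβ hsα hsβ u w v hu huw hwv h1 h2
  have hsθ : SCP θ := fun x y h => hsα x y (hα x y h)
  obtain ⟨w', h3, h4⟩ := hI (TT u) (cT θ u) (cT α u) (cT β u)
    (Con.le_def.2 fun {x y} h => hα _ _ h) (Con.le_def.2 fun {x y} h => hβ _ _ h)
    (hyp1 hL2 hM1 hθ hsθ hu) (hyp2 hL2 hM1 hθ hsθ hu)
    (by
      intro a w b h1 h2
      obtain ⟨w', h0, h3, h4⟩ := perm hQ1 hθ hP hN hα hβ hsα (tne hu a)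
        (sc_trans a.2 (sc_symm w.2)) (sc_trans w.2 (sc_symm b.2)) (rr_rs α h1) (rr_rs β h2)
      exact ⟨⟨w', sc_trans h0 a.2⟩, rs_rr hL2 hM1 hθ hsθ hβ hsβ hu h3,
        rs_rr hL2 hM1 hθ hsθ hα hsα hu h4⟩)
    (by
      intro a w b h1 h2
      obtain ⟨w', h0, h3, h4⟩ := perm hQ1 hθ hP hN hα hβ hsα
        (by simpa using tne hu a) (sc_st (sc_trans a.2 (sc_symm w.2)))
        (sc_st (sc_trans w.2 (sc_symm b.2))) (ll_rs α h1) (ll_rs β h2)
      have h5 : SC (st w') a.1 := by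
        have := sc_st h0
        rwa [st_st] at this
      refine ⟨⟨st w', sc_trans h5 a.2⟩, rs_ll hL2 hM1 hθ hsθ hβ hsβ hu ?_,
        rs_ll hL2 hM1 hθ hsθ hα hsα hu ?_⟩
      · simpa using h3
      · simpa using h4)
    ⟨u, sc_refl u⟩ ⟨w, sc_symm huw⟩ ⟨v, sc_symm (sc_trans huw hwv)⟩ h1 h2
  exact ⟨w'.1, sc_symm w'.2, h3, h4⟩

end Pool.Agent.Helper62.CR.Q2
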